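import Mathlib

set_option autoImplicit false

namespace Pool.Agent.Helper64.ORStar

/-- A right partial order on a group: a partial order invariant under right multiplication. -/
def IsRightPartialOrder {G : Type*} [Group G] (r : G → G → Prop) : Prop :=
  (∀ a, r a a) ∧ (∀ a b c, r a b → r b c → r a c) ∧
  (∀ a b, r a b → r b a → a = b) ∧ (∀ a b c, r a b → r (a * c) (b * c))

/-- A right order: a total right partial order. -/
def IsRightOrder {G : Type*} [Group G] (r : G → G → Prop) : Prop :=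
  IsRightPartialOrder r ∧ ∀ a b, r a b ∨ r b a

/-- A group with the right-order extension property: it admits a right order and every
right partial order on it is contained in a right order. -/
def IsORStar (G : Type*) [Group G] : Prop :=
  (∃ s : G → G → Prop, IsRightOrder s) ∧
  ∀ r : G → G → Prop, IsRightPartialOrder r →
    ∃ s : G → G → Prop, IsRightOrder s ∧ ∀ a b, r a b → s a b

/-- A bi-order: a right order which is also invariant under left multiplication. -/
def IsBiOrder {G : Type*} [Group G] (r : G → G → Prop) : Prop :=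
  IsRightOrder r ∧ ∀ a b c, r a b → r (c * a) (c * b)

/-- A relatively convex subgroup: a subgroup that is convex for some right order. -/
def IsRelConvex {G : Type*} [Group G] (C : Subgroup G) : Prop :=
  ∃ s : G → G → Prop, IsRightOrder s ∧
    ∀ a b c, a ∈ C → c ∈ C → s a b → s b c → b ∈ C

/-- Cones: subsemigroups not containing the identity. -/
structure Cone (G : Type*) [Group G] where
  P : Set G
  mul : ∀ a ∈ P, ∀ b ∈ P, a * b ∈ P
  one : (1 : G) ∉ P

def Cone.Total {G : Type*} [Group G] (Q : Cone G) : Prop :=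
  ∀ g : G, g ≠ 1 → g ∈ Q.P ∨ g⁻¹ ∈ Q.P

theorem cone_pow {G : Type*} [Group G] (Q : Cone G) {g : G} (hg : g ∈ Q.P) :
    ∀ n : ℕ, 0 < n → g ^ n ∈ Q.P := by
  intro n hn
  induction n with
  | zero => omega
  | succ k ih =>
    rcases Nat.eq_zero_or_pos k with hk | hk
    · subst hk; simpa using hg
    · rw [pow_succ]; exact Q.mul _ (ih hk) _ hg

theorem cone_not_inv {G : Type*} [Group G] (Q : Cone G) {g : G} (hg : g ∈ Q.P) :
    g⁻¹ ∉ Q.P := by
  intro h
  have := Q.mul _ hg _ h
  rw [mul_inv_cancel] at this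
  exact Q.one this

theorem ofOrder {G : Type*} [Group G] (s : G → G → Prop) (hs : IsRightOrder s) :
    ∃ Q : Cone G, Q.Total ∧ ∀ g, g ∈ Q.P ↔ (s 1 g ∧ g ≠ 1) := by
  obtain ⟨⟨hrefl, htr, hanti, hmul⟩, htot⟩ := hs
  refine ⟨⟨{g | s 1 g ∧ g ≠ 1}, ?_, ?_⟩, ?_, ?_⟩
  · rintro a ⟨ha, ha1⟩ b ⟨hb, hb1⟩
    have h1 : s b (a * b) := by simpa using hmul 1 a b ha
    refine ⟨htr _ _ _ hb h1, ?_⟩
    intro hab
    rw [hab] at h1
    exact hb1 (hanti _ _ h1 hb)
  · rintro ⟨_, h⟩; exact h rfl
  · intro g hg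
    rcases htot 1 g with h | h
    · exact Or.inl ⟨h, hg⟩
    · right
      refine ⟨?_, by simpa using hg⟩
      have := hmul g 1 g⁻¹ h
      simpa using this
  · intro g; rfl

theorem ext_cone {G : Type*} [Group G] (hG : IsORStar G) (P : Cone G) :
    ∃ Q : Cone G, Q.Total ∧ P.P ⊆ Q.P := by
  have hr : IsRightPartialOrder (fun a b : G => a = b ∨ b * a⁻¹ ∈ P.P) := by
    refine ⟨fun a => Or.inl rfl, ?_, ?_, ?_⟩
    · rintro a b c (h | h) (h' | h')
      · exact Or.inl (h.trans h')
      · subst h; exact Or.inr h'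
      · subst h'; exact Or.inr h
      · right
        have := P.mul _ h' _ h
        simpa [mul_assoc] using this
    · rintro a b (h | h) (h' | h')
      · exact h
      · exact h
      · exact h'.symm
      · exfalso
        have := P.mul _ h' _ h
        simp [mul_assoc] at this
        exact P.one this
    · rintro a b c (h | h)
      · left; rw [h]
      · right
        simpa [mul_assoc] using h
  obtain ⟨s, hs, hle⟩ := hG.2 _ hr
  obtain ⟨Q, hQ, hQm⟩ := ofOrder s hs
  refine ⟨Q, hQ, ?_⟩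
  intro g hg
  rw [hQm]
  refine ⟨hle 1 g (Or.inr (by simpa using hg)), ?_⟩
  rintro rfl
  exact P.one hg

/-- torsion-freeness -/
theorem pow_ne_one {G : Type*} [Group G] (hG : IsORStar G) {x : G} (hx : x ≠ 1) {n : ℕ}
    (hn : 0 < n) : x ^ n ≠ 1 := by
  obtain ⟨s, hs⟩ := hG.1
  obtain ⟨Q, hQ, -⟩ := ofOrder s hs
  intro h
  rcases hQ x hx with h1 | h1
  · have := cone_pow Q h1 n hn
    rw [h] at this; exact Q.one this
  · have := cone_pow Q h1 n hn
    rw [inv_pow, h, inv_one] at this; exact Q.one this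

theorem zpow_ne_one {G : Type*} [Group G] (hG : IsORStar G) {x : G} (hx : x ≠ 1) {n : ℤ}
    (hn : n ≠ 0) : x ^ n ≠ 1 := by
  rcases Int.natAbs_eq n with h | h
  · rw [h, zpow_natCast]
    exact pow_ne_one hG hx (by omega)
  · rw [h, zpow_neg, zpow_natCast]
    simp only [ne_eq, inv_eq_one]
    exact pow_ne_one hG hx (by omega)

/-- The key lemma: a cone invariant under conjugation by `x ^ n` and containing no power of `x`
is contained, together with all its conjugates by powers of `x`, in a total cone. -/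
theorem key {G : Type*} [Group G] (hG : IsORStar G) (P : Cone G) (x : G) (hx : x ≠ 1) (n : ℕ)
    (hn : 0 < n) (h1 : ∀ p ∈ P.P, x ^ n * p * (x ^ n)⁻¹ ∈ P.P)
    (h2 : ∀ p ∈ P.P, (x ^ n)⁻¹ * p * (x ^ n) ∈ P.P)
    (h3 : ∀ k : ℤ, x ^ k ∉ P.P) :
    ∃ Q : Cone G, Q.Total ∧ ∀ i : ℤ, ∀ p ∈ P.P, x ^ i * p * (x ^ i)⁻¹ ∈ Q.P := by
  -- invariance under all powers of x ^ n
  have hinvN : ∀ k : ℕ, ∀ p ∈ P.P, x ^ ((n : ℤ) * k) * p * (x ^ ((n : ℤ) * k))⁻¹ ∈ P.P := by
    intro k
    induction k with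
    | zero => intro p hp; simpa using hp
    | succ k ih =>
      intro p hp
      have := h1 _ (ih p hp)
      have e : x ^ ((n : ℤ) * ((k + 1 : ℕ) : ℤ)) = x ^ n * x ^ ((n : ℤ) * k) := by
        rw [← zpow_natCast x n, ← zpow_add]; congr 1; push_cast; ring
      rw [e]
      simpa [mul_assoc] using this
  have hinvN' : ∀ k : ℕ, ∀ p ∈ P.P,
      x ^ (-((n : ℤ) * k)) * p * (x ^ (-((n : ℤ) * k)))⁻¹ ∈ P.P := by
    intro k
    induction k with
    | zero => intro p hp; simpa using hp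
    | succ k ih =>
      intro p hp
      have := h2 _ (ih p hp)
      have e : x ^ (-((n : ℤ) * ((k + 1 : ℕ) : ℤ))) = (x ^ n)⁻¹ * x ^ (-((n : ℤ) * k)) := by
        rw [← zpow_natCast x n, ← zpow_neg, ← zpow_add]; congr 1; push_cast; ring
      rw [e]
      simpa [mul_assoc] using this
  have hinv : ∀ k : ℤ, ∀ p ∈ P.P, x ^ ((n : ℤ) * k) * p * (x ^ ((n : ℤ) * k))⁻¹ ∈ P.P := by
    intro k p hp
    rcases Int.natAbs_eq k with h | h
    · rw [h]; exact hinvN _ p hp
    · rw [h, mul_neg]; exact hinvN' _ p hp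
  -- the enlarged cone
  let P' : Cone G :=
    { P := {g | (∃ p ∈ P.P, ∃ k : ℤ, g = p * x ^ ((n : ℤ) * k)) ∨
        ∃ k : ℕ, 0 < k ∧ g = x ^ ((n : ℤ) * (k : ℤ))}
      mul := by
        rintro a (⟨p, hp, k, rfl⟩ | ⟨k, hk, rfl⟩) b (⟨q, hq, l, rfl⟩ | ⟨l, hl, rfl⟩)
        · left
          refine ⟨p * (x ^ ((n : ℤ) * k) * q * (x ^ ((n : ℤ) * k))⁻¹),
            P.mul _ hp _ (hinv k q hq), k + l, ?_⟩
          rw [mul_add, zpow_add]; group
        · left
          refine ⟨p, hp, k + l, ?_⟩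
          rw [mul_add, zpow_add]; group
        · left
          refine ⟨x ^ ((n : ℤ) * (k : ℤ)) * q * (x ^ ((n : ℤ) * (k : ℤ)))⁻¹, hinv k q hq,
            k + l, ?_⟩
          rw [mul_add, zpow_add]; group
        · right
          refine ⟨k + l, by omega, ?_⟩
          rw [← zpow_add]; congr 1; push_cast; ring
      one := by
        rintro (⟨p, hp, k, h⟩ | ⟨k, hk, h⟩)
        · have : p = x ^ (-((n : ℤ) * k)) := by
            rw [zpow_neg]; exact eq_inv_of_mul_eq_one_left h.symm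
          rw [this] at hp
          exact h3 _ hp
        · exact zpow_ne_one hG hx (by positivity) h.symm }
  obtain ⟨Q, hQ, hPQ⟩ := ext_cone hG P'
  have hxQ : x ∈ Q.P := by
    rcases hQ x hx with h | h
    · exact h
    · exfalso
      have a1 : x ^ ((n : ℤ) * ((1 : ℕ) : ℤ)) ∈ Q.P := hPQ (Or.inr ⟨1, by omega, rfl⟩)
      have a2 := cone_pow Q h n hn
      have := Q.mul _ a1 _ a2
      simp at this
      exact Q.one this
  refine ⟨Q, hQ, ?_⟩
  -- first nonnegative powers
  have hnonneg : ∀ i : ℕ, ∀ p ∈ P.P, x ^ i * p * (x ^ i)⁻¹ ∈ Q.P := by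
    intro i p hp
    rcases Nat.eq_zero_or_pos i with hi | hi
    · subst hi
      have : p ∈ Q.P := hPQ (Or.inl ⟨p, hp, 0, by simp⟩)
      simpa using this
    · have a1 : x ^ i ∈ Q.P := cone_pow Q hxQ i hi
      have a2 : p * x ^ ((n : ℤ) * (-(i + 1 : ℤ))) ∈ Q.P := hPQ (Or.inl ⟨p, hp, _, rfl⟩)
      have hpos : 0 < n * (i + 1) - i := by
        have : i + 1 ≤ n * (i + 1) := Nat.le_mul_of_pos_left _ hn
        omega
      have a3 : x ^ (n * (i + 1) - i) ∈ Q.P := cone_pow Q hxQ _ hpos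
      have := Q.mul _ (Q.mul _ a1 _ a2) _ a3
      have e : x ^ i * (p * x ^ ((n : ℤ) * (-(i + 1 : ℤ)))) * x ^ (n * (i + 1) - i)
          = x ^ i * p * (x ^ i)⁻¹ := by
        rw [mul_assoc, mul_assoc p, mul_assoc (x ^ i) p]
        congr 2
        rw [← zpow_natCast x (n * (i + 1) - i), ← zpow_natCast x i, ← zpow_neg, ← zpow_add]
        congr 1
        have : ((n * (i + 1) - i : ℕ) : ℤ) = (n : ℤ) * (i + 1) - i := by
          rw [Nat.cast_sub (by omega)]; push_cast; ring
        rw [this]; ring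
      rw [e] at this
      exact this
  intro i p hp
  -- write i = j - n * m with j a natural number
  obtain ⟨m, hm⟩ : ∃ m : ℕ, 0 ≤ i + n * m := by
    refine ⟨i.natAbs, ?_⟩
    have h1 : (1 : ℤ) ≤ n := by exact_mod_cast hn
    have h2 : -(i.natAbs : ℤ) ≤ i := by omega
    nlinarith [Int.natCast_nonneg i.natAbs]
  obtain ⟨j, hj⟩ := Int.eq_ofNat_of_zero_le hm
  have hi : i = (j : ℤ) + (n : ℤ) * (-(m : ℤ)) := by
    have : i + n * m = (j : ℤ) := hj
    linarith
  have := hnonneg j _ (hinv (-(m : ℤ)) p hp)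
  rw [hi, zpow_add, zpow_natCast]
  simpa [mul_assoc] using this

end Pool.Agent.Helper64.ORStar
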