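import Mathlib
import Pool.Agent.Helper64.ORStar.Defs

set_option autoImplicit false

namespace Pool.Agent.Helper64.ORStar

/-- The positive elements outside a convex subgroup. -/
theorem convex_cone {G : Type*} [Group G] (C : Subgroup G) (hC : IsRelConvex C) :
    ∃ S : Cone G, (∀ g, g ∉ C → g ∈ S.P ∨ g⁻¹ ∈ S.P) ∧ (∀ g ∈ S.P, g ∉ C) ∧
      (∀ c ∈ C, ∀ g ∈ S.P, c * g ∈ S.P ∧ g * c ∈ S.P) := by
  obtain ⟨s, hs, hconv⟩ := hC
  obtain ⟨Q, hQ, hmem⟩ := ofOrder s hs
  obtain ⟨⟨hrefl, htr, hanti, hmul⟩, htot⟩ := hs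
  -- right multiplication
  have hR : ∀ g ∈ Q.P, g ∉ C → ∀ c ∈ C, g * c ∈ Q.P := by
    intro g hg hgC c hc
    have hgc : g * c ∉ C := fun h => hgC (by simpa using C.mul_mem h (C.inv_mem hc))
    rcases hQ (g * c) (fun h => hgc (h ▸ C.one_mem)) with h | h
    · exact h
    · exfalso
      -- 1 ≤ (g c)⁻¹, so g c ≤ 1, so g ≤ c⁻¹, so 1 ≤ g ≤ c⁻¹ and g ∈ C
      have h1 := ((hmem _).1 h).1
      have h2 := hmul _ _ (g * c) h1
      simp only [one_mul, inv_mul_cancel] at h2
      have h3 := hmul _ _ c⁻¹ h2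
      simp only [mul_assoc, mul_inv_cancel, mul_one, one_mul] at h3
      exact hgC (hconv 1 g c⁻¹ C.one_mem (C.inv_mem hc) ((hmem _).1 hg).1 h3)
  have hL : ∀ g ∈ Q.P, g ∉ C → ∀ c ∈ C, c * g ∈ Q.P := by
    intro g hg hgC c hc
    have hgc : c * g ∉ C := fun h => hgC (by simpa using C.mul_mem (C.inv_mem hc) h)
    rcases hQ (c * g) (fun h => hgc (h ▸ C.one_mem)) with h | h
    · exact h
    · exfalso
      have h1 := hR _ h (fun h' => hgc (by simpa using C.inv_mem h')) c hc
      have : (c * g)⁻¹ * c = g⁻¹ := by group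
      rw [this] at h1
      exact cone_not_inv Q hg h1
  refine ⟨⟨{g | g ∈ Q.P ∧ g ∉ C}, ?_, ?_⟩, ?_, ?_, ?_⟩
  · rintro a ⟨ha, haC⟩ b ⟨hb, hbC⟩
    refine ⟨Q.mul _ ha _ hb, ?_⟩
    intro hab
    -- a = (ab) b⁻¹, and a⁻¹ = b (ab)⁻¹ is positive
    have := hR b hb hbC (a * b)⁻¹ (C.inv_mem hab)
    have e : b * (a * b)⁻¹ = a⁻¹ := by group
    rw [e] at this
    exact cone_not_inv Q ha this
  · rintro ⟨h, _⟩; exact Q.one h
  · intro g hg
    rcases hQ g (fun h => hg (h ▸ C.one_mem)) with h | h
    · exact Or.inl ⟨h, hg⟩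
    · exact Or.inr ⟨h, fun h' => hg (by simpa using C.inv_mem h')⟩
  · rintro g ⟨_, h⟩; exact h
  · rintro c hc g ⟨hg, hgC⟩
    refine ⟨⟨hL g hg hgC c hc, fun h => hgC (by simpa using C.mul_mem (C.inv_mem hc) h)⟩,
      ⟨hR g hg hgC c hc, fun h => hgC (by simpa using C.mul_mem h (C.inv_mem hc))⟩⟩

/-- No relatively convex subgroup is mapped properly into itself by a conjugation. -/
theorem no_incl {G : Type*} [Group G] (hG : IsORStar G) (C : Subgroup G)
    (hC : IsRelConvex C) (x : G) (hx : ∀ c ∈ C, x⁻¹ * c * x ∈ C) :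
    ∀ c ∈ C, x * c * x⁻¹ ∈ C := by
  by_contra hcon
  push Not at hcon
  obtain ⟨c0, hc0, hc0'⟩ := hcon
  obtain ⟨S, htotS, hSC, hSmul⟩ := convex_cone C hC
  have hx1 : x ≠ 1 := by
    rintro rfl; apply hc0'; simpa using hc0
  -- membership in the i-th conjugate: g ∈ Cᵢ iff x⁻ⁱ g xⁱ ∈ C
  let cj : ℤ → G → G := fun i g => (x ^ i)⁻¹ * g * x ^ i
  have cj_mul : ∀ i a b, cj i (a * b) = cj i a * cj i b := by
    intro i a b; simp only [cj]; group
  have cj_inv : ∀ i a, cj i a⁻¹ = (cj i a)⁻¹ := by
    intro i a; simp only [cj]; group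
  have cj_one : ∀ i, cj i 1 = 1 := by intro i; simp [cj]
  have mono1 : ∀ i g, cj i g ∈ C → cj (i + 1) g ∈ C := by
    intro i g h
    have := hx _ h
    have e : x⁻¹ * cj i g * x = cj (i + 1) g := by
      simp only [cj]; rw [zpow_add_one]; group
    rwa [e] at this
  have mono : ∀ (n : ℕ) i g, cj i g ∈ C → cj (i + n) g ∈ C := by
    intro n
    induction n with
    | zero => intro i g h; simpa using h
    | succ n ih =>
      intro i g h
      have := mono1 _ _ (ih i g h)
      have e : i + ((n + 1 : ℕ) : ℤ) = i + n + 1 := by push_cast; ring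
      rw [e]; exact this
  have mono' : ∀ i j g, i ≤ j → cj i g ∈ C → cj j g ∈ C := by
    intro i j g hij h
    obtain ⟨n, hn⟩ := Int.eq_ofNat_of_zero_le (sub_nonneg.mpr hij)
    have := mono n i g h
    have e : i + (n : ℤ) = j := by
      have : j - i = (n : ℤ) := hn
      linarith
    rwa [e] at this
  -- signs
  let sg : ℤ → G → Prop := fun i g => if Even i then cj i g ∈ S.P else (cj i g)⁻¹ ∈ S.P
  let P : Cone G :=
    { P := {g | ∃ i : ℤ, cj i g ∉ C ∧ cj (i + 1) g ∈ C ∧ sg i g}
      mul := by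
        rintro a ⟨i, hai, hai', hasg⟩ b ⟨j, hbj, hbj', hbsg⟩
        rcases lt_trichotomy i j with hij | hij | hij
        · -- a in C_{i+1} ≤ C_j
          have haj : cj j a ∈ C := mono' (i + 1) j a (by omega) hai'
          refine ⟨j, ?_, ?_, ?_⟩
          · intro h
            rw [cj_mul] at h
            exact hbj (by simpa using C.mul_mem (C.inv_mem haj) h)
          · rw [cj_mul]
            exact C.mul_mem (mono' (i + 1) (j + 1) a (by omega) hai') hbj'
          · by_cases he : Even j
            · simp only [sg, if_pos he] at hbsg ⊢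
              rw [cj_mul]
              exact (hSmul _ haj _ hbsg).1
            · simp only [sg, if_neg he] at hbsg ⊢
              rw [cj_mul, mul_inv_rev]
              exact (hSmul _ (C.inv_mem haj) _ hbsg).2
        · subst hij
          have key2 : sg i (a * b) := by
            by_cases he : Even i
            · simp only [sg, if_pos he] at hasg hbsg ⊢
              rw [cj_mul]
              exact S.mul _ hasg _ hbsg
            · simp only [sg, if_neg he] at hasg hbsg ⊢
              rw [cj_mul, mul_inv_rev]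
              exact S.mul _ hbsg _ hasg
          refine ⟨i, ?_, ?_, key2⟩
          · intro h
            by_cases he : Even i
            · simp only [sg, if_pos he] at key2
              exact hSC _ key2 h
            · simp only [sg, if_neg he] at key2
              exact hSC _ key2 (C.inv_mem h)
          · rw [cj_mul]; exact C.mul_mem hai' hbj'
        · have hbi : cj i b ∈ C := mono' (j + 1) i b (by omega) hbj'
          refine ⟨i, ?_, ?_, ?_⟩
          · intro h
            rw [cj_mul] at h
            exact hai (by simpa using C.mul_mem h (C.inv_mem hbi))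
          · rw [cj_mul]
            exact C.mul_mem hai' (mono' (j + 1) (i + 1) b (by omega) hbj')
          · by_cases he : Even i
            · simp only [sg, if_pos he] at hasg ⊢
              rw [cj_mul]
              exact (hSmul _ hbi _ hasg).2
            · simp only [sg, if_neg he] at hasg ⊢
              rw [cj_mul, mul_inv_rev]
              exact (hSmul _ (C.inv_mem hbi) _ hasg).1
      one := by
        rintro ⟨i, h, -⟩
        rw [cj_one] at h
        exact h C.one_mem }
  have hmemP : ∀ g, g ∈ P.P ↔ ∃ i : ℤ, cj i g ∉ C ∧ cj (i + 1) g ∈ C ∧ sg i g := fun g => Iff.rfl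
  have cj_shift : ∀ (i k : ℤ) g, cj (i + k) (x ^ k * g * (x ^ k)⁻¹) = cj i g := by
    intro i k g; simp only [cj]; rw [zpow_add]; group
  have cj_shift' : ∀ (i k : ℤ) g, cj (i - k) ((x ^ k)⁻¹ * g * (x ^ k)) = cj i g := by
    intro i k g; simp only [cj]; rw [zpow_sub]; group
  obtain ⟨Q, hQ, hi⟩ := key hG P x hx1 2 (by norm_num)
    (by
      intro p hp
      rw [hmemP] at hp ⊢
      obtain ⟨i, h1, h2, h3⟩ := hp
      refine ⟨i + 2, ?_, ?_, ?_⟩
      · have := cj_shift i 2 p
        rw [zpow_ofNat] at this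
        rw [this]; exact h1
      · have := cj_shift (i + 1) 2 p
        rw [zpow_ofNat] at this
        have e : i + 2 + 1 = i + 1 + 2 := by ring
        rw [e, this]; exact h2
      · have := cj_shift i 2 p
        rw [zpow_ofNat] at this
        have ev : Even (i + 2) ↔ Even i := by
          simp
        simp only [sg, this, ev]
        exact h3)
    (by
      intro p hp
      rw [hmemP] at hp ⊢
      obtain ⟨i, h1, h2, h3⟩ := hp
      refine ⟨i - 2, ?_, ?_, ?_⟩
      · have := cj_shift' i 2 p
        rw [zpow_ofNat] at this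
        rw [this]; exact h1
      · have := cj_shift' (i + 1) 2 p
        rw [zpow_ofNat] at this
        have e : i - 2 + 1 = i + 1 - 2 := by ring
        rw [e, this]; exact h2
      · have := cj_shift' i 2 p
        rw [zpow_ofNat] at this
        have ev : Even (i - 2) ↔ Even i := by
          simp
        simp only [sg, this, ev]
        exact h3)
    (by
      intro k hk
      rw [hmemP] at hk
      obtain ⟨i, h1, h2, -⟩ := hk
      have : cj i (x ^ k) = cj (i + 1) (x ^ k) := by
        simp only [cj]; group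
      rw [this] at h1
      exact h1 h2)
  -- the element c0 conjugated lies in the layer C_1 \ C_0 ... use g = x c0 x⁻¹ up to sign
  have hlayer : ∀ g, cj 0 g ∉ C → cj 1 g ∈ C → cj 0 g ∈ S.P → False := by
    intro g h1 h2 h3
    have hgP : g ∈ P.P := by
      rw [hmemP]
      refine ⟨0, h1, by simpa using h2, ?_⟩
      simp only [sg, Even.zero, if_true]
      exact h3
    have a1 : x * g * x⁻¹ ∈ Q.P := by
      have := hi 1 g hgP
      simpa using this
    have hgP' : (x * g * x⁻¹)⁻¹ ∈ P.P := by
      rw [hmemP]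
      have e1 : cj 1 (x * g * x⁻¹)⁻¹ = (cj 0 g)⁻¹ := by simp only [cj]; group
      have e2 : cj (1 + 1) (x * g * x⁻¹)⁻¹ = (cj 1 g)⁻¹ := by
        simp only [cj]; group
      refine ⟨1, ?_, ?_, ?_⟩
      · rw [e1]; exact fun h => h1 (by simpa using C.inv_mem h)
      · rw [e2]; exact C.inv_mem h2
      · have : ¬ Even (1 : ℤ) := by decide
        simp only [sg, if_neg this, e1, inv_inv]
        exact h3
    have a2 : (x * g * x⁻¹)⁻¹ ∈ Q.P := by
      have := hi 0 _ hgP'
      simpa using this
    exact cone_not_inv Q a1 a2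
  -- take g = x c0 x⁻¹
  have g0 : cj 0 (x * c0 * x⁻¹) ∉ C := by simpa [cj] using hc0'
  have g1 : cj 1 (x * c0 * x⁻¹) ∈ C := by
    have : cj 1 (x * c0 * x⁻¹) = c0 := by simp only [cj]; group
    rw [this]; exact hc0
  rcases htotS _ g0 with h | h
  · exact hlayer _ g0 g1 h
  · refine hlayer (x * c0 * x⁻¹)⁻¹ ?_ ?_ ?_
    · rw [cj_inv]; exact fun h' => g0 (by simpa using C.inv_mem h')
    · rw [cj_inv]; exact C.inv_mem g1
    · rw [cj_inv]; exact h

end Pool.Agent.Helper64.ORStar
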