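import Mathlib
import Pool.Agent.Helper64.ORStar.Convex

set_option autoImplicit false

namespace Pool.Agent.Helper64.ORStar

/-- A total cone gives a right order. -/
theorem order_of_cone {G : Type*} [Group G] (Q : Cone G) (hQ : Q.Total) :
    IsRightOrder (fun a b : G => a = b ∨ b * a⁻¹ ∈ Q.P) := by
  refine ⟨⟨fun a => Or.inl rfl, ?_, ?_, ?_⟩, ?_⟩
  · rintro a b c (h | h) (h' | h')
    · exact Or.inl (h.trans h')
    · subst h; exact Or.inr h'
    · subst h'; exact Or.inr h
    · right
      have := Q.mul _ h' _ h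
      simpa [mul_assoc] using this
  · rintro a b (h | h) (h' | h')
    · exact h
    · exact h
    · exact h'.symm
    · exfalso
      have := Q.mul _ h' _ h
      simp [mul_assoc] at this
      exact Q.one this
  · rintro a b c (h | h)
    · left; rw [h]
    · right
      simpa [mul_assoc] using h
  · intro a b
    by_cases hab : a = b
    · exact Or.inl (Or.inl hab)
    · have : b * a⁻¹ ≠ 1 := fun h => hab (mul_inv_eq_one.mp h).symm
      rcases hQ _ this with h | h
      · exact Or.inl (Or.inr h)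
      · right; right; simpa using h

/-- A criterion for relative convexity: a cone `S` which is invariant under multiplication by
`C` on both sides and which, with its inverse, covers the complement of `C`. -/
theorem relConvex_of_cone {G : Type*} [Group G] (hG : ∃ s : G → G → Prop, IsRightOrder s)
    (C : Subgroup G) (S : Cone G)
    (h1 : ∀ g, g ∉ C → g ∈ S.P ∨ g⁻¹ ∈ S.P) (h2 : ∀ g ∈ S.P, g ∉ C)
    (h3 : ∀ c ∈ C, ∀ g ∈ S.P, c * g ∈ S.P ∧ g * c ∈ S.P) : IsRelConvex C := by
  obtain ⟨s, hs⟩ := hG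
  obtain ⟨R, hR, -⟩ := ofOrder s hs
  let Q : Cone G :=
    { P := {g | g ∈ S.P ∨ (g ∈ C ∧ g ∈ R.P)}
      mul := by
        rintro a (ha | ⟨ha, ha'⟩) b (hb | ⟨hb, hb'⟩)
        · exact Or.inl (S.mul _ ha _ hb)
        · exact Or.inl (h3 _ hb _ ha).2
        · exact Or.inl (h3 _ ha _ hb).1
        · exact Or.inr ⟨C.mul_mem ha hb, R.mul _ ha' _ hb'⟩
      one := by
        rintro (h | ⟨-, h⟩)
        · exact S.one h
        · exact R.one h }
  have hQ : Q.Total := by
    intro g hg
    by_cases hgC : g ∈ C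
    · rcases hR g hg with h | h
      · exact Or.inl (Or.inr ⟨hgC, h⟩)
      · exact Or.inr (Or.inr ⟨C.inv_mem hgC, h⟩)
    · rcases h1 g hgC with h | h
      · exact Or.inl (Or.inl h)
      · exact Or.inr (Or.inl h)
  refine ⟨_, order_of_cone Q hQ, ?_⟩
  rintro a b c ha hc (h | h) (h' | h')
  · rw [← h]; exact ha
  · rw [← h]; exact ha
  · rw [h']; exact hc
  · by_contra hb
    -- b a⁻¹ and c b⁻¹ positive, a, c in C, b not in C
    have e1 : b * a⁻¹ ∉ C := fun h0 => hb (by simpa using C.mul_mem h0 ha)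
    have e2 : c * b⁻¹ ∉ C := fun h0 => hb (by
      have := C.inv_mem (C.mul_mem (C.inv_mem hc) h0)
      simpa using this)
    have g1 : b * a⁻¹ ∈ S.P := by
      rcases h with h | h
      · exact h
      · exact absurd h.1 e1
    have g2 : c * b⁻¹ ∈ S.P := by
      rcases h' with h | h
      · exact h
      · exact absurd h.1 e2
    have g3 := S.mul _ g2 _ g1
    have : c * b⁻¹ * (b * a⁻¹) = c * a⁻¹ := by group
    rw [this] at g3
    exact h2 _ g3 (C.mul_mem hc (C.inv_mem ha))

/-- Intersections of relatively convex subgroups are relatively convex. -/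
theorem relConvex_iInf {G : Type*} [Group G] (hG : ∃ s : G → G → Prop, IsRightOrder s)
    {ι : Type*} (C : ι → Subgroup G) (hC : ∀ i, IsRelConvex (C i)) :
    IsRelConvex (⨅ i, C i) := by
  classical
  choose S hS1 hS2 hS3 using fun i => convex_cone (C i) (hC i)
  let lt : ι → ι → Prop := WellOrderingRel
  have hwf : WellFounded lt := (inferInstance : IsWellOrder ι WellOrderingRel).wf
  have htri : ∀ i j, lt i j ∨ i = j ∨ lt j i := fun i j => trichotomous_of WellOrderingRel i j
  let P : Cone G :=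
    { P := {g | ∃ i, g ∈ (S i).P ∧ ∀ j, lt j i → g ∈ C j}
      mul := by
        rintro a ⟨i, hai, ha⟩ b ⟨j, hbj, hb⟩
        rcases htri i j with h | h | h
        · refine ⟨i, (hS3 i b (hb i h) a hai).2, fun k hk => (C k).mul_mem (ha k hk) (hb k ?_)⟩
          exact trans_of WellOrderingRel hk h
        · subst h
          exact ⟨i, (S i).mul _ hai _ hbj, fun k hk => (C k).mul_mem (ha k hk) (hb k hk)⟩
        · refine ⟨j, (hS3 j a (ha j h) b hbj).1, fun k hk => (C k).mul_mem (ha k ?_) (hb k hk)⟩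
          exact trans_of WellOrderingRel hk h
      one := by
        rintro ⟨i, h, -⟩
        exact hS2 i _ h (C i).one_mem }
  refine relConvex_of_cone hG _ P ?_ ?_ ?_
  · intro g hg
    rw [Subgroup.mem_iInf] at hg
    push Not at hg
    obtain ⟨i0, hi0⟩ := hg
    let i := hwf.min {i | g ∉ C i} ⟨i0, hi0⟩
    have hi : g ∉ C i := hwf.min_mem {i | g ∉ C i} ⟨i0, hi0⟩
    have hmin : ∀ j, lt j i → g ∈ C j := by
      intro j hj
      by_contra h
      exact hwf.not_lt_min {i | g ∉ C i} h hj
    rcases hS1 i g hi with h | h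
    · exact Or.inl ⟨i, h, hmin⟩
    · exact Or.inr ⟨i, h, fun j hj => (C j).inv_mem (hmin j hj)⟩
  · rintro g ⟨i, h, -⟩ h'
    rw [Subgroup.mem_iInf] at h'
    exact hS2 i _ h (h' i)
  · rintro c hc g ⟨i, h, h'⟩
    rw [Subgroup.mem_iInf] at hc
    exact ⟨⟨i, (hS3 i c (hc i) g h).1, fun j hj => (C j).mul_mem (hc j) (h' j hj)⟩,
      ⟨i, (hS3 i c (hc i) g h).2, fun j hj => (C j).mul_mem (h' j hj) (hc j)⟩⟩

/-- Conjugates of relatively convex subgroups are relatively convex. -/
theorem relConvex_conj {G : Type*} [Group G] (C : Subgroup G) (hC : IsRelConvex C) (t : G)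
    (D : Subgroup G) (hD : ∀ g, g ∈ D ↔ t * g * t⁻¹ ∈ C) : IsRelConvex D := by
  obtain ⟨s, ⟨⟨h1, h2, h3, h4⟩, h5⟩, h6⟩ := hC
  refine ⟨fun a b => s (t * a * t⁻¹) (t * b * t⁻¹), ⟨⟨fun a => h1 _, fun a b c => h2 _ _ _,
    ?_, ?_⟩, fun a b => h5 _ _⟩, ?_⟩
  · intro a b hab hba
    have := h3 _ _ hab hba
    simpa using this
  · intro a b c hab
    have := h4 _ _ (t * c * t⁻¹) hab
    have e1 : ∀ y : G, t * y * t⁻¹ * (t * c * t⁻¹) = t * (y * c) * t⁻¹ := by intro y; group
    rw [e1, e1] at this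
    exact this
  · intro a b c ha hc hab hbc
    rw [hD] at ha hc ⊢
    exact h6 _ _ _ ha hc hab hbc

/-- Ultralimits of relatively convex subgroups are relatively convex. -/
theorem relConvex_ultra {G : Type*} [Group G] (hG : ∃ s : G → G → Prop, IsRightOrder s)
    {ι : Type*} (U : Ultrafilter ι) (C : ι → Subgroup G) (hC : ∀ i, IsRelConvex (C i))
    (D : Subgroup G) (hD : ∀ g, g ∈ D ↔ ∀ᶠ i in (U : Filter ι), g ∈ C i) : IsRelConvex D := by
  choose S hS1 hS2 hS3 using fun i => convex_cone (C i) (hC i)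
  let P : Cone G :=
    { P := {g | ∀ᶠ i in (U : Filter ι), g ∈ (S i).P}
      mul := by
        intro a ha b hb
        filter_upwards [ha, hb] with i h1 h2
        exact (S i).mul _ h1 _ h2
      one := by
        intro h
        obtain ⟨i, hi⟩ := h.exists
        exact (S i).one hi }
  refine relConvex_of_cone hG _ P ?_ ?_ ?_
  · intro g hg
    rw [hD, ← Ultrafilter.eventually_not] at hg
    have : ∀ᶠ i in (U : Filter ι), g ∈ (S i).P ∨ g⁻¹ ∈ (S i).P := by
      filter_upwards [hg] with i hi using hS1 i g hi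
    exact Ultrafilter.eventually_or.mp this
  · intro g hg hgD
    rw [hD] at hgD
    have hg' : ∀ᶠ i in (U : Filter ι), g ∈ (S i).P := hg
    obtain ⟨i, h1, h2⟩ := (hg'.and hgD).exists
    exact hS2 i g h1 h2
  · intro c hc g hg
    rw [hD] at hc
    have hg' : ∀ᶠ i in (U : Filter ι), g ∈ (S i).P := hg
    constructor
    · show ∀ᶠ i in (U : Filter ι), c * g ∈ (S i).P
      filter_upwards [hc, hg'] with i h1 h2 using (hS3 i c h1 g h2).1
    · show ∀ᶠ i in (U : Filter ι), g * c ∈ (S i).P
      filter_upwards [hc, hg'] with i h1 h2 using (hS3 i c h1 g h2).2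

end Pool.Agent.Helper64.ORStar
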